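import Pool.Agent.PST.StmtsGU

/-! PST, row CLU: from the clean hypotheses to the class. -/

set_option autoImplicit false

open scoped BigOperators

noncomputable section

namespace Pool.Agent.PST.GU.H68

open Pool.Agent.Helper51_AWC Pool.Agent.Helper79_WRA Pool.Agent.PP Pool.Agent.PP.KF
open Pool.Agent.PP.K9 Pool.Agent.PP.K9.H97 Pool.Agent.PP.H75 Pool.Agent.PP.T3 Pool.Agent.PP.T2
open Pool.Agent.PFD (Ei)
open Pool.Agent.PSS Pool.Agent.PST.GU

attribute [local instance] Ideal.Quotient.field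

/-- two generators give rank at most two -/
theorem r2_of {ℓ : ℕ} [hℓ : Fact ℓ.Prime] {G Q : Type} [Group G] [Group Q] [Finite Q] (f : Q →* G)
    (hf : Function.Injective f) (x y : G) (hr : f.range = Subgroup.closure {x, y})
    (hab : ∀ a b : Q, a * b = b * a) (hp : IsPGroup ℓ Q) : TW.R2 ℓ Q := by
  refine ⟨inferInstance, hp, hab, ?_⟩
  let _ : CommGroup Q := { (inferInstance : Group Q) with mul_comm := hab }
  have hx : x ∈ f.range := by
    rw [hr]
    exact Subgroup.subset_closure (Set.mem_insert _ _)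
  have hy : y ∈ f.range := by
    rw [hr]
    exact Subgroup.subset_closure (Set.mem_insert_of_mem _ rfl)
  obtain ⟨a, rfl⟩ := hx
  obtain ⟨b, rfl⟩ := hy
  refine TW.ncard_le (Q := Q) hℓ.out.pos (x := a) (y := b) fun q => ?_
  have h1 : f q ∈ (Subgroup.closure ({a, b} : Set Q)).map f := by
    rw [MonoidHom.map_closure, Set.image_pair, ← hr]
    exact ⟨q, rfl⟩
  obtain ⟨q', hq', hqq⟩ := h1
  rw [← hf hqq]
  exact hq'

/-- CLU -/
theorem clu (cln : ClnStmt) : CluStmt := by
  intro ℓ hℓ M _ hM G _ _ e V γ hL hV s Y U h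
  have hab : ∀ a b : V, a * b = b * a := fun a b => Subtype.ext (hL.ab a a.2 b b.2)
  by_cases hU : U = ⊥
  · obtain ⟨W₀, hW₀⟩ := cln ℓ M hM G e V γ hL hV s Y ⊥ ⊥
      { jn := by rw [← hU]; exact h.jn
        dy := h.dy
        dw := by rw [inf_bot_eq]
        cy := by
          intro i
          have : IsCyclic (Y i) := isCyclic_of_prime_card (h.cd i)
          obtain ⟨y, hy⟩ := IsCyclic.exists_generator (α := Y i)
          refine ⟨y, y.2, fun x hx => ?_⟩
          obtain ⟨k, hk⟩ := Subgroup.mem_zpowers_iff.1 (hy ⟨x, hx⟩)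
          refine ⟨k, ?_⟩
          rw [← Subgroup.coe_zpow, hk]
        sy := h.sy
        sw := by
          intro t _ w hw
          rw [Subgroup.mem_bot] at hw ⊢
          rw [hw, mul_one, mul_inv_cancel]
        su := by
          intro t _ w hw
          rw [Subgroup.mem_bot] at hw ⊢
          rw [hw, mul_one, mul_inv_cancel]
        uw := le_rfl
        nt := fun _ => rfl
        fr := by
          intro t _ u hu hu1
          exact absurd (Subgroup.mem_bot.1 hu) hu1 }
    exact ⟨W₀, Or.inl hW₀⟩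
  · -- stable subgroups
    have hst : ∀ Z : Subgroup G, (∀ t ∈ Tg V γ, ∀ z ∈ Z, t * z * t⁻¹ ∈ Z) →
        ∀ a ∈ Ei V γ, ∀ z ∈ Z.subgroupOf V, a z ∈ Z.subgroupOf V := by
      rintro Z hZ _ ⟨⟨t, htn⟩, ht, rfl⟩ z hz
      rw [Subgroup.mem_subgroupOf]
      exact hZ t (Subgroup.mem_subgroupOf.1 ht) z (Subgroup.mem_subgroupOf.1 hz)
    have hYV : ∀ i, Y i ≤ V := fun i => (le_iSup Y i).trans (le_sup_left.trans h.jn.le)
    have hUV : U ≤ V := le_sup_right.trans h.jn.le
    have hYu : ∀ i, Yu ℓ (Ei V γ) (U.subgroupOf V) ((Y i).subgroupOf V) := by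
      intro i
      refine ⟨?_, hst _ (h.sy i), ?_⟩
      · rw [Nat.card_congr (Subgroup.subgroupOfEquivOfLe (hYV i)).toEquiv]
        exact h.cd i
      · rintro _ ⟨⟨t, htn⟩, ht, rfl⟩ hfix u hu hu1 hfu x hx
        have h7 : t * (u : G) * t⁻¹ = u := congrArg Subtype.val hfu
        have h8 : ∀ y ∈ Y i, t * y = y * t := by
          intro y hy
          have h9 : t * y * t⁻¹ = y :=
            congrArg Subtype.val (hfix ⟨y, hYV i hy⟩ (Subgroup.mem_subgroupOf.2 hy))
          exact mul_inv_eq_iff_eq_mul.1 h9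
        have h10 := h.fr i t (Subgroup.mem_subgroupOf.1 ht) h8 u (Subgroup.mem_subgroupOf.1 hu)
          (fun h0 => hu1 (Subtype.ext h0)) (mul_inv_eq_iff_eq_mul.1 h7)
        apply Subtype.ext
        show t * (x : G) * t⁻¹ = x
        have h11 : (x : G) * t = t * x :=
          (Subgroup.mem_centralizer_iff.1 h10) x (Subgroup.mem_subgroupOf.1 hx)
        rw [← h11, mul_inv_cancel_right]
    -- the product of the first factors
    have hD : ∀ n : ℕ, n ≤ s → Cyu ℓ (Ei V γ) (U.subgroupOf V)
        ((⨆ j : Fin s, ⨆ (_ : (j : ℕ) < n), Y j).subgroupOf V) := by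
      intro n
      induction n with
      | zero =>
        intro _
        have h0 : (⨆ j : Fin s, ⨆ (_ : (j : ℕ) < 0), Y j) = ⊥ := by
          rw [eq_bot_iff]
          refine iSup_le fun j => iSup_le fun hj => ?_
          omega
        rw [h0, Subgroup.bot_subgroupOf]
        exact Cyu.bot
      | succ n ih =>
        intro hn
        have h0 : (⨆ j : Fin s, ⨆ (_ : (j : ℕ) < n + 1), Y j) =
            (⨆ j : Fin s, ⨆ (_ : (j : ℕ) < n), Y j) ⊔ Y ⟨n, hn⟩ := by
          apply le_antisymm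
          · refine iSup_le fun j => iSup_le fun hj => ?_
            rcases Nat.lt_or_ge (j : ℕ) n with h1 | h1
            · exact (le_iSup₂ (f := fun (j : Fin s) (_ : (j : ℕ) < n) => Y j) j h1).trans
                le_sup_left
            · have h2 : j = ⟨n, hn⟩ := Fin.ext (by show (j : ℕ) = n; omega)
              rw [h2]
              exact le_sup_right
          · refine sup_le ?_ ?_
            · refine iSup_le fun j => iSup_le fun hj => ?_
              exact le_iSup₂_of_le j (Nat.lt_succ_of_lt hj) le_rfl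
            · exact le_iSup₂_of_le (⟨n, hn⟩ : Fin s) (Nat.lt_succ_self n) le_rfl
        have hle : (⨆ j : Fin s, ⨆ (_ : (j : ℕ) < n), Y j) ≤ V :=
          iSup_le fun j => iSup_le fun _ => hYV j
        rw [h0, Subgroup.subgroupOf_sup hle (hYV _)]
        refine Cyu.mul _ _ (ih (by omega)) (hYu _) ?_
        rw [eq_bot_iff]
        rintro ⟨x, hxV⟩ ⟨hx1, hx2⟩
        have h3 : x ∈ Y ⟨n, hn⟩ ⊓ (⨆ j, ⨆ (_ : j < (⟨n, hn⟩ : Fin s)), Y j) :=
          ⟨Subgroup.mem_subgroupOf.1 hx2, Subgroup.mem_subgroupOf.1 hx1⟩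
        rw [h.dy, Subgroup.mem_bot] at h3
        rw [Subgroup.mem_bot]
        exact Subtype.ext h3
    obtain ⟨x, y, hxy⟩ := h.gn
    cases s with
    | zero =>
      have h1 : (⨆ i, Y i) = ⊥ := by
        rw [eq_bot_iff]
        exact iSup_le fun i => i.elim0
      have h2 : U = V := by
        have h3 := h.jn
        rwa [h1, bot_sup_eq] at h3
      refine ⟨⊤, Or.inr (Or.inl ⟨rfl, ?_, ?_⟩)⟩
      · intro h4
        apply hV
        rw [eq_bot_iff]
        intro x hx
        have h5 : (⟨x, hx⟩ : V) ∈ (⊤ : Subgroup V) := trivial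
        rw [h4, Subgroup.mem_bot] at h5
        rw [Subgroup.mem_bot]
        exact congrArg Subtype.val h5
      · refine r2_of (ℓ := ℓ) V.subtype V.subtype_injective x y ?_ hab hL.tp.1
        rw [V.range_subtype, ← h2, hxy]
    | succ n =>
      have hle : (⨆ j : Fin (n + 1), ⨆ (_ : (j : ℕ) < n), Y j) ≤ V :=
        iSup_le fun j => iSup_le fun _ => hYV j
      have hall : (⨆ j : Fin (n + 1), ⨆ (_ : (j : ℕ) < n), Y j) ⊔ Y (Fin.last n) = ⨆ i, Y i := by
        apply le_antisymm
        · exact sup_le (iSup_le fun j => iSup_le fun _ => le_iSup Y j) (le_iSup Y _)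
        · refine iSup_le fun j => ?_
          rcases Nat.lt_or_ge (j : ℕ) n with h1 | h1
          · exact (le_iSup₂ (f := fun (j : Fin (n + 1)) (_ : (j : ℕ) < n) => Y j) j h1).trans
              le_sup_left
          · have h2 : j = Fin.last n := Fin.ext (by show (j : ℕ) = n; omega)
            rw [h2]
            exact le_sup_right
      refine ⟨(Y (Fin.last n)).subgroupOf V, Or.inr (Or.inr
        ⟨(⨆ j : Fin (n + 1), ⨆ (_ : (j : ℕ) < n), Y j).subgroupOf V, U.subgroupOf V, ?_⟩)⟩
      refine ⟨hab, hD n (by omega), hYu _, hst U h.su, ?_, ?_, ?_, ?_, ?_⟩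
      · intro h1
        apply hU
        rw [eq_bot_iff]
        intro u hu
        have h6 : (⟨u, hUV hu⟩ : V) ∈ U.subgroupOf V := Subgroup.mem_subgroupOf.2 hu
        rw [h1, Subgroup.mem_bot] at h6
        rw [Subgroup.mem_bot]
        exact congrArg Subtype.val h6
      · rw [eq_bot_iff]
        rintro ⟨z, hzV⟩ ⟨hz1, hz2⟩
        have h3 : z ∈ Y (Fin.last n) ⊓ (⨆ j, ⨆ (_ : j < Fin.last n), Y j) :=
          ⟨Subgroup.mem_subgroupOf.1 hz2, Subgroup.mem_subgroupOf.1 hz1⟩
        rw [h.dy, Subgroup.mem_bot] at h3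
        rw [Subgroup.mem_bot]
        exact Subtype.ext h3
      · rw [← Subgroup.subgroupOf_sup hle (hYV _), hall, eq_bot_iff]
        rintro ⟨z, hzV⟩ ⟨hz1, hz2⟩
        have h3 : z ∈ (⨆ i, Y i) ⊓ U :=
          ⟨Subgroup.mem_subgroupOf.1 hz1, Subgroup.mem_subgroupOf.1 hz2⟩
        rw [h.du, Subgroup.mem_bot] at h3
        rw [Subgroup.mem_bot]
        exact Subtype.ext h3
      · rw [← Subgroup.subgroupOf_sup hle (hYV _), hall,
          ← Subgroup.subgroupOf_sup (iSup_le hYV) hUV, h.jn, Subgroup.subgroupOf_self]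
      · refine r2_of (ℓ := ℓ) (V.subtype.comp (U.subgroupOf V).subtype)
          (V.subtype_injective.comp (U.subgroupOf V).subtype_injective) x y ?_ ?_
          (hL.tp.1.to_subgroup _)
        · rw [MonoidHom.range_comp, Subgroup.range_subtype, Subgroup.subgroupOf_map_subtype,
            inf_eq_left.mpr hUV, hxy]
        · intro a b
          exact Subtype.ext (hab a b)

end Pool.Agent.PST.GU.H68
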