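import Pool.Agent.PST.StmtsGU
import Pool.Agent.Helper69_PSS.CYP

/-! PST, row K3R: from the class `K3 L` to the property `Rt3`. -/

set_option autoImplicit false

noncomputable section

namespace Pool.Agent.PST.GU.H68

open Pool.Agent.PSS Pool.Agent.PST.GU

theorem cyc_of_cyu {V : Type} [CommGroup V] {ℓ : ℕ} (hℓ : ℓ.Prime) {E : Subgroup (MulAut V)}
    {U C : Subgroup V} (hC : Cyu ℓ E U C) : Cyc E C := by
  induction hC with
  | bot => exact Cyc.bot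
  | mul C Y hC hY hCY ih =>
    refine Cyc.mul C Y ih ?_ hY.st hCY
    have : Fact ℓ.Prime := ⟨hℓ⟩
    have : IsCyclic Y := isCyclic_of_prime_card hY.cd
    obtain ⟨y, hy⟩ := IsCyclic.exists_generator (α := Y)
    refine ⟨y, y.2, fun x hx => ?_⟩
    obtain ⟨k, hk⟩ := Subgroup.mem_zpowers_iff.1 (hy ⟨x, hx⟩)
    refine ⟨k, ?_⟩
    rw [← Subgroup.coe_zpow, hk]

/-- K3R -/
theorem k3r : K3rStmt := by
  intro L ℓ V _ _ E W hℓ _ _ hK
  obtain ⟨C, U, hS⟩ := hK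
  have hcyc := cyc_of_cyu hℓ hS.cy
  have hWst : ∀ e : E, ∀ w ∈ W, E.subtype e w ∈ W := fun e w hw => hS.yw.st e e.2 w hw
  have hUst : ∀ e : E, ∀ u ∈ U, E.subtype e u ∈ U := fun e u hu => hS.su e e.2 u hu
  obtain ⟨T, hT⟩ : ∃ T : Subgroup V, T = W ⊔ U := ⟨_, rfl⟩
  have hWT : W ≤ T := hT ▸ le_sup_left
  have hUT : U ≤ T := hT ▸ le_sup_right
  have hTst : ∀ e : E, ∀ w ∈ T, E.subtype e w ∈ T := by
    intro e w hw
    rw [hT] at hw ⊢
    obtain ⟨x, hx, u, hu, rfl⟩ := Subgroup.mem_sup.mp hw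
    rw [map_mul]
    exact Subgroup.mul_mem_sup (hWst e x hx) (hUst e u hu)
  have hWU : ∀ x, x ∈ W → x ∈ U → x = 1 := by
    intro x h1 h2
    have h3 : x ∈ (C ⊔ W) ⊓ U := ⟨Subgroup.mem_sup_right h1, h2⟩
    rwa [hS.cu, Subgroup.mem_bot] at h3
  have hCT : C ⊓ T = ⊥ := by
    rw [Subgroup.eq_bot_iff_forall]
    rintro x ⟨h1, h2⟩
    rw [hT] at h2
    obtain ⟨w, hw, u, hu, rfl⟩ := Subgroup.mem_sup.mp h2
    have h3 : u ∈ (C ⊔ W) ⊓ U := by
      refine ⟨?_, hu⟩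
      have h4 : u = (w * u) * w⁻¹ := by rw [mul_comm w u, mul_inv_cancel_right]
      rw [h4]
      exact Subgroup.mul_mem_sup h1 (W.inv_mem hw)
    rw [hS.cu, Subgroup.mem_bot] at h3
    rw [h3, mul_one] at h1 ⊢
    have h5 : w ∈ C ⊓ W := ⟨h1, hw⟩
    rwa [hS.cw, Subgroup.mem_bot] at h5
  have hCTt : C ⊔ T = ⊤ := by
    rw [hT, ← sup_assoc]
    exact hS.jn
  obtain ⟨n, hn⟩ := H69.claim hcyc V E E.subtype (MonoidHom.id V) (fun _ _ h => h)
    (fun x => ⟨x, x.2, fun v => rfl⟩) T hTst (by rw [Subgroup.map_id]; exact hCT)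
    (by rw [Subgroup.map_id, hCTt, MonoidHom.range_eq_map, Subgroup.map_id])
  refine ⟨n, T, H69.rsh E.subtype T hTst, hWT, hWst, hn, fun e w => rfl, ?_,
    U.subgroupOf T, ?_, ?_, ?_, ?_, ?_⟩
  · rw [Nat.card_congr (Subgroup.subgroupOfEquivOfLe hWT).toEquiv, hS.yw.cd]
    exact hℓ
  · constructor
    · rw [disjoint_iff, Subgroup.eq_bot_iff_forall]
      rintro v ⟨h1, h2⟩
      exact Subtype.ext (hWU v h1 h2)
    · rw [codisjoint_iff, eq_top_iff]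
      intro v _
      have hv : (v : V) ∈ W ⊔ U := hT ▸ v.2
      obtain ⟨w, hw, u, hu, hwu⟩ := Subgroup.mem_sup.mp hv
      have h5 : v = (⟨w, hWT hw⟩ : T) * ⟨u, hUT hu⟩ := Subtype.ext hwu.symm
      rw [h5]
      exact Subgroup.mul_mem_sup (Subgroup.mem_subgroupOf.mpr hw) (Subgroup.mem_subgroupOf.mpr hu)
  · intro h0
    apply hS.nt
    rw [Subgroup.eq_bot_iff_forall]
    intro u hu
    have h1 : (⟨u, hUT hu⟩ : T) ∈ U.subgroupOf T := Subgroup.mem_subgroupOf.2 hu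
    rw [h0, Subgroup.mem_bot] at h1
    exact congrArg Subtype.val h1
  · intro e w hw
    exact hWst e _ hw
  · intro e u hu
    exact hUst e _ hu
  · intro e hew u hu hu1 heu
    have h1 : ∀ y ∈ W, (e : MulAut V) y = y := by
      intro y hy
      exact congrArg Subtype.val (hew ⟨y, hWT hy⟩ (Subgroup.mem_subgroupOf.2 hy))
    have h2 := hS.yw.fr e e.2 h1 u hu (fun h0 => hu1 (Subtype.ext h0)) (congrArg Subtype.val heu)
    apply MulEquiv.ext
    intro v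
    apply Subtype.ext
    change (e : MulAut V) (v : V) = v
    have hv : (v : V) ∈ W ⊔ U := hT ▸ v.2
    obtain ⟨w, hw, x, hx, hwx⟩ := Subgroup.mem_sup.mp hv
    rw [← hwx, map_mul, h1 w hw, h2 x hx]

end Pool.Agent.PST.GU.H68
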