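import Pool.Agent.PST.StmtsGU

/-! PST, rows RSQ, SUI, SUQ: images of the decomposition `V = C × W × U`. -/

set_option autoImplicit false

noncomputable section

namespace Pool.Agent.PST.GU.H68

open Pool.Agent.PSS Pool.Agent.PST.GU

/-- the restriction of an automorphism to a stable subgroup -/
def rst {V : Type} [Group V] (E : Subgroup (MulAut V)) (U : Subgroup V)
    (hU : ∀ a ∈ E, ∀ u ∈ U, a u ∈ U) (a : MulAut V) (ha : a ∈ E) : MulAut U where
  toFun u := ⟨a u, hU a ha u u.2⟩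
  invFun u := ⟨a⁻¹ u, hU a⁻¹ (E.inv_mem ha) u u.2⟩
  left_inv u := by
    apply Subtype.ext
    change a⁻¹ (a (u : V)) = u
    rw [← MulAut.mul_apply, inv_mul_cancel, MulAut.one_apply]
  right_inv u := by
    apply Subtype.ext
    change a (a⁻¹ (u : V)) = u
    rw [← MulAut.mul_apply, mul_inv_cancel, MulAut.one_apply]
  map_mul' u v := by
    apply Subtype.ext
    change a ((u : V) * v) = a u * a v
    rw [map_mul]

theorem rst_mem {V : Type} [Group V] (E : Subgroup (MulAut V)) (U : Subgroup V)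
    (hU : ∀ a ∈ E, ∀ u ∈ U, a u ∈ U) (a : MulAut V) (ha : a ∈ E) :
    rst E U hU a ha ∈ rse E U := ⟨a, ha, fun _ => rfl⟩

/-- injectivity on a subgroup -/
theorem inj_of {V V' : Type} [Group V] [Group V'] (π : V →* V') (U : Subgroup V)
    (hk : U ⊓ π.ker = ⊥) {u v : V} (hu : u ∈ U) (hv : v ∈ U) (h : π u = π v) : u = v := by
  have h1 : u * v⁻¹ ∈ U ⊓ π.ker := by
    refine ⟨U.mul_mem hu (U.inv_mem hv), ?_⟩
    change π (u * v⁻¹) = 1
    rw [map_mul, map_inv, h, mul_inv_cancel]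
  rw [hk, Subgroup.mem_bot] at h1
  exact mul_inv_eq_one.1 h1

/-- RSQ -/
theorem rsq : RsqStmt := by
  intro V V' _ _ E E' π hq U hU hk
  have hb : Function.Bijective (π.subgroupMap U) :=
    ⟨fun u v h => Subtype.ext (inj_of π U hk u.2 v.2 (congrArg Subtype.val h)),
      π.subgroupMap_surjective U⟩
  refine ⟨MulEquiv.ofBijective (π.subgroupMap U) hb, fun u => rfl, ?_, ?_⟩
  · exact (MulEquiv.ofBijective (π.subgroupMap U) hb).surjective
  · rintro b' ⟨a', ha', hb'⟩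
    obtain ⟨a, ha, haa⟩ := hq.lif a' ha'
    refine ⟨rst E U hU a ha, rst_mem E U hU a ha, fun u => ?_⟩
    apply Subtype.ext
    have h1 := hb' (MulEquiv.ofBijective (π.subgroupMap U) hb u)
    refine Eq.trans ?_ h1.symm
    exact haa u

/-- SUI -/
theorem sui (yum : YumStmt) (cym : CymStmt) : SuiStmt := by
  intro L ℓ hL V V' _ _ E E' π hq C W U hS
  have hker : π.toMonoidHom.ker = ⊥ := (MonoidHom.ker_eq_bot_iff _).2 π.injective
  have hinj : Function.Injective π.toMonoidHom := π.injective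
  have hk : ∀ Y : Subgroup V, Y ⊓ π.toMonoidHom.ker = ⊥ := by
    intro Y
    rw [hker, inf_bot_eq]
  obtain ⟨τ, -, hτ⟩ := rsq V V' E E' π.toMonoidHom hq U hS.su (hk U)
  refine ⟨?_, ?_, ?_, ?_, ?_, ?_, ?_, ?_, ?_⟩
  · intro a b
    obtain ⟨x, rfl⟩ := π.surjective a
    obtain ⟨y, rfl⟩ := π.surjective b
    rw [← map_mul, hS.ab, map_mul]
  · exact cym.1 ℓ V V' E E' π.toMonoidHom hq U hS.su (hk U) C hS.cy (hk C)
  · exact yum ℓ V V' E E' π.toMonoidHom hq U W hS.su hS.yw (hk W) (hk U)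
  · rintro a' ha' _ ⟨u, hu, rfl⟩
    obtain ⟨a, ha, haa⟩ := hq.lif a' ha'
    exact ⟨a u, hS.su a ha u hu, haa u⟩
  · intro h
    exact hS.nt ((Subgroup.map_eq_bot_iff_of_injective U hinj).1 h)
  · rw [← Subgroup.map_inf_eq C W _ hinj, hS.cw, Subgroup.map_bot]
  · rw [← Subgroup.map_sup, ← Subgroup.map_inf_eq (C ⊔ W) U _ hinj, hS.cu, Subgroup.map_bot]
  · rw [← Subgroup.map_sup, ← Subgroup.map_sup, hS.jn]
    exact Subgroup.map_top_of_surjective _ hq.sur
  · exact hL.iso U (U.map π.toMonoidHom) (rse E U) (rse E' (U.map π.toMonoidHom)) τ hτ hS.tm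

/-- an element of a product of two subgroups of a commutative group -/
theorem mem_sup' {V : Type} [Group V] (hab : ∀ a b : V, a * b = b * a) {A B : Subgroup V} {x : V}
    (hx : x ∈ A ⊔ B) : ∃ a ∈ A, ∃ b ∈ B, a * b = x := by
  let _ : CommGroup V := { (inferInstance : Group V) with mul_comm := hab }
  exact Subgroup.mem_sup.1 hx

/-- SUQ -/
theorem suq (yum : YumStmt) (cym : CymStmt) : SuqStmt := by
  intro L ℓ hL V V' _ _ E E' π hq C W U hS hker hne
  have hab := hS.ab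
  -- the intersections with the kernel
  have hCW : C ⊓ W = ⊥ := hS.cw
  have hcu : ∀ x, x ∈ C ⊔ W → x ∈ U → x = 1 := by
    intro x h1 h2
    have h3 : x ∈ (C ⊔ W) ⊓ U := ⟨h1, h2⟩
    rwa [hS.cu, Subgroup.mem_bot] at h3
  have hcw : ∀ x, x ∈ C → x ∈ W → x = 1 := by
    intro x h1 h2
    have h3 : x ∈ C ⊓ W := ⟨h1, h2⟩
    rwa [hS.cw, Subgroup.mem_bot] at h3
  have hCU : ∀ x, x ∈ C ⊔ U → x ∈ W → x = 1 := by
    intro x h1 h2
    obtain ⟨c, hc, u, hu, rfl⟩ := mem_sup' hab h1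
    have h3 : u = 1 := by
      refine hcu u ?_ hu
      have h4 : u = c⁻¹ * (c * u) := by rw [inv_mul_cancel_left]
      rw [h4]
      exact (C ⊔ W).mul_mem ((C ⊔ W).inv_mem (Subgroup.mem_sup_left hc)) (Subgroup.mem_sup_right h2)
    rw [h3, mul_one] at h2 ⊢
    exact hcw c hc h2
  have hUk : U ⊓ π.ker = ⊥ := by
    rw [hker, Subgroup.eq_bot_iff_forall]
    rintro x ⟨h1, h2⟩
    exact hCU x (Subgroup.mem_sup_right h1) h2
  have hCk : C ⊓ π.ker = ⊥ := by rw [hker, hS.cw]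
  have hWm : W.map π = ⊥ := by
    rw [← hker]
    exact (Subgroup.map_eq_bot_iff _).2 le_rfl
  obtain ⟨τ, hτv, hτ⟩ := rsq V V' E E' π hq U hS.su hUk
  have htm := hL.iso U (U.map π) (rse E U) (rse E' (U.map π)) τ hτ hS.tm
  have hsu : ∀ a' ∈ E', ∀ u' ∈ U.map π, a' u' ∈ U.map π := by
    rintro a' ha' _ ⟨u, hu, rfl⟩
    obtain ⟨a, ha, haa⟩ := hq.lif a' ha'
    exact ⟨a u, hS.su a ha u hu, haa u⟩
  by_cases hC : C = ⊥
  · -- the terminal case
    have htop : U.map π = ⊤ := by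
      have h1 : (C ⊔ W ⊔ U).map π = ⊤ := by
        rw [hS.jn]
        exact Subgroup.map_top_of_surjective _ hq.sur
      rwa [hC, bot_sup_eq, Subgroup.map_sup, hWm, bot_sup_eq] at h1
    refine ⟨⊤, Or.inl ⟨rfl, ?_, ?_⟩⟩
    · obtain ⟨v, hv⟩ := hne
      intro h
      have h1 : v ∈ (⊤ : Subgroup V') := Subgroup.mem_top v
      rw [h, Subgroup.mem_bot] at h1
      exact hv h1
    · have hbi : Function.Bijective (U.map π).subtype := by
        refine ⟨(U.map π).subtype_injective, fun v => ?_⟩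
        have h1 : v ∈ U.map π := by
          rw [htop]
          exact Subgroup.mem_top v
        exact ⟨⟨v, h1⟩, rfl⟩
      refine hL.iso (U.map π) V' (rse E' (U.map π)) E' (MulEquiv.ofBijective _ hbi) ⟨hbi.2, ?_⟩ htm
      intro a' ha'
      exact ⟨rst E' (U.map π) hsu a' ha', rst_mem E' (U.map π) hsu a' ha', fun v => rfl⟩
  · obtain ⟨C₁, Y₁, hC₁, hY₁, hCY, hCY2⟩ := cym.2 ℓ V E U C hS.cy hC
    have hC₁C : C₁ ≤ C := hCY2 ▸ le_sup_left
    have hY₁C : Y₁ ≤ C := hCY2 ▸ le_sup_right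
    have hC₁k : C₁ ⊓ π.ker = ⊥ := by
      rw [eq_bot_iff, ← hCk]
      exact inf_le_inf_right _ hC₁C
    have hY₁k : Y₁ ⊓ π.ker = ⊥ := by
      rw [eq_bot_iff, ← hCk]
      exact inf_le_inf_right _ hY₁C
    refine ⟨Y₁.map π, Or.inr ⟨C₁.map π, U.map π, ?_, ?_, ?_, hsu, ?_, ?_, ?_, ?_, htm⟩⟩
    · intro a b
      obtain ⟨x, rfl⟩ := hq.sur a
      obtain ⟨y, rfl⟩ := hq.sur b
      rw [← map_mul, hab, map_mul]
    · exact cym.1 ℓ V V' E E' π hq U hS.su hUk C₁ hC₁ hC₁k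
    · exact yum ℓ V V' E E' π hq U Y₁ hS.su hY₁ hY₁k hUk
    · intro h
      apply hS.nt
      rw [Subgroup.eq_bot_iff_forall]
      intro u hu
      have h1 : π u ∈ U.map π := ⟨u, hu, rfl⟩
      rw [h, Subgroup.mem_bot] at h1
      exact inj_of π U hUk hu U.one_mem (h1.trans (map_one π).symm)
    · rw [Subgroup.eq_bot_iff_forall]
      rintro _ ⟨⟨c, hc, rfl⟩, ⟨y, hy, hcy⟩⟩
      have h1 : y = c := inj_of π C hCk (hY₁C hy) (hC₁C hc) hcy
      have h2 : c ∈ C₁ ⊓ Y₁ := ⟨hc, h1 ▸ hy⟩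
      rw [hCY, Subgroup.mem_bot] at h2
      rw [h2, map_one]
    · rw [← Subgroup.map_sup, hCY2, Subgroup.eq_bot_iff_forall]
      rintro _ ⟨⟨c, hc, rfl⟩, ⟨u, hu, huc⟩⟩
      have h1 : (C ⊔ U) ⊓ π.ker = ⊥ := by
        rw [hker, Subgroup.eq_bot_iff_forall]
        rintro x ⟨h1, h2⟩
        exact hCU x h1 h2
      have h2 : u = c := inj_of π (C ⊔ U) h1 (Subgroup.mem_sup_right hu) (Subgroup.mem_sup_left hc) huc
      have h3 : u = 1 := hcu u (h2 ▸ Subgroup.mem_sup_left hc) hu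
      rw [← h2, h3, map_one]
    · have h1 : (C ⊔ W ⊔ U).map π = ⊤ := by
        rw [hS.jn]
        exact Subgroup.map_top_of_surjective _ hq.sur
      rw [Subgroup.map_sup, Subgroup.map_sup, hWm, sup_bot_eq] at h1
      rw [← Subgroup.map_sup, hCY2]
      exact h1

end Pool.Agent.PST.GU.H68
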